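import Pool.Agent.H302Z.EqProof

set_option autoImplicit false

namespace Pool.Agent.Results.MP_89a31a_co.ACounterexample

open Pool.Agent.H302Z.Equi

/-- Strongly equistable graphs are not closed under substitution: there are strongly equistable
graphs `G` (on 30 vertices) and `H` (on 2 vertices) and a vertex `v` of `G` such that
`G[v ← H]` is not strongly equistable. -/
theorem result : ∃ (G : SimpleGraph (Fin 30)) (H : SimpleGraph (Fin 2)) (v : Fin 30),
    StronglyEquistable G ∧ StronglyEquistable H ∧ ¬ StronglyEquistable (substitute G v H) :=
  ⟨G0, ⊤, 0, G0_se, K2_se, G1_not⟩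

end Pool.Agent.Results.MP_89a31a_co.ACounterexample
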